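import Mathlib
import Pool.Agent.N988.EP.Stm

/-!
# First-passage percolation on hierarchical lattices: lower bounds by potentials (P5)
-/

open MeasureTheory Set Filter
open Pool.Agent.N988.EA Pool.Agent.N988.EC Pool.Agent.N988.EP

namespace Pool.Agent.N409.EP

/-- Gluing of potentials of the halves. -/
theorem glue {b n : ℕ} (w : Edge b (n + 1) → Bool) (f : Fin b → Bool → Pt b n → ℤ)
    (E : Bool → ℤ) (M : Fin b → ℤ) (hf : ∀ i h, Pot (sub w i h) (f i h))
    (hE : ∀ i h, f i h (.inl h) = E h) (hM : ∀ i h, f i h (.inl (!h)) = M i) :
    ∃ F : Pt b (n + 1) → ℤ, Pot w F ∧ (∀ h, F (.inl h) = E h) ∧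
      ∀ i h y, F (emb i h y) = f i h y := by
  let V : Fin b ⊕ (Fin b × Bool × Vert b n) → ℤ :=
    Sum.elim M (fun p => f p.1 p.2.1 (.inr p.2.2))
  let F : Pt b (n + 1) → ℤ := Sum.elim E V
  have key : ∀ i h y, F (emb i h y) = f i h y := by
    intro i h y
    rcases y with s | x
    · by_cases hs : s = h
      · subst hs
        have : emb i s (Sum.inl s : Pt b n) = .inl s := by simp [emb]
        rw [this, hE]
        rfl
      · have h2 : s = !h := by
          cases s <;> cases h <;> simp_all
        subst h2
        have : emb i h (Sum.inl (!h) : Pt b n) = .inr (.inl i) := by simp [emb]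
        rw [this, hM]
        rfl
    · rfl
  refine ⟨F, ?_, fun h => rfl, key⟩
  intro e
  have h1 := hf e.1 e.2.1 e.2.2
  have e1 : ∀ t, F (bd (n + 1) e t) = f e.1 e.2.1 (bd n e.2.2 t) := fun t => key _ _ _
  rw [e1, e1]
  exact h1

/-- The extension statement for a side `s`. -/
theorem ext' (h2 : S_EXT) {b n : ℕ} (w : Edge b n → Bool) (s : Bool) (a c : ℤ)
    (h : |a - c| ≤ Y n w) :
    ∃ f : Pt b n → ℤ, Pot w f ∧ f (.inl s) = a ∧ f (.inl (!s)) = c := by
  cases s
  · exact h2 b n w a c h
  · obtain ⟨f, h3, h4, h5⟩ := h2 b n w c a (by rw [abs_sub_comm]; exact h)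
    exact ⟨f, h3, h5, h4⟩

theorem pot_zero {b n : ℕ} (w : Edge b n → Bool) : Pot w (fun _ => (0 : ℤ)) := by
  intro e
  simp

theorem t_LOW (h1 : S_POT) (h2 : S_EXT) (h3 : S_UP) : S_LOW := by
  intro b hb
  refine ⟨?_, ?_, ?_⟩
  · intro n w
    apply le_antisymm ((h3 b hb).1 n w)
    obtain ⟨f, p1, p2, p3⟩ := h2 b n w (Y n w) 0 (by simp)
    have h4 := (h1 b hb n w).1 f {.inl false} {.inl true} (Y n w) ⟨_, rfl⟩ ⟨_, rfl⟩ p1
      (by rintro x rfl; exact p2.ge) (by rintro x rfl; exact p3.le)
    exact_mod_cast h4
  · intro n w i s e
    obtain ⟨f, p1, p2, p3, p4⟩ := (h1 b hb n (sub w i s)).2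
    obtain ⟨F, q1, q2, q3⟩ := glue w (fun i' s' => if i' = i ∧ s' = s then f else fun _ => 0)
      (fun _ => 0) (fun _ => 0)
      (by
        intro i' s'
        by_cases h : i' = i ∧ s' = s
        · obtain ⟨rfl, rfl⟩ := h
          simpa using p1
        · simp only [h, if_false]
          exact pot_zero _)
      (by
        intro i' s'
        by_cases h : i' = i ∧ s' = s
        · simp [h, p2]
        · simp [h])
      (by
        intro i' s'
        by_cases h : i' = i ∧ s' = s
        · simp [h, p2]
        · simp [h])
    have h4 := (h1 b hb (n + 1) w).1 F (Set.range (bd (n + 1) ((i, s, e) : Edge b (n + 1))))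
      (Set.range Sum.inl) (far (sub w i s) e) (Set.range_nonempty _) (Set.range_nonempty _) q1
      (by
        rintro x ⟨t, rfl⟩
        have : F (bd (n + 1) ((i, s, e) : Edge b (n + 1)) t) = f (bd n e t) := by
          have a1 := q3 i s (bd n e t)
          simp only [and_self, if_true] at a1
          exact a1
        rw [this]
        exact p4 e t)
      (by
        rintro x ⟨t, rfl⟩
        exact (q2 t).le)
    exact_mod_cast h4
  · intro n w i j s e y1 y2 y3
    obtain ⟨f, p1, p2, p3, p4⟩ := (h1 b hb n (sub (sub w i s) j (!s))).2
    obtain ⟨g1, g11, g12, g13⟩ := ext' h2 (sub (sub w i s) j s) s 0 1 (by simpa using y1)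
    obtain ⟨g3, g31, g32, g33⟩ := ext' h2 (sub w i (!s)) s 1 0 (by simpa using y3)
    -- the values at the middle vertices of the other branches
    have hm : ∀ j', ∃ m : ℤ, (j' ≠ j → |(0 : ℤ) - m| ≤ Y n (sub (sub w i s) j' s) ∧
        |(1 : ℤ) - m| ≤ Y n (sub (sub w i s) j' (!s))) := by
      intro j'
      by_cases hj : j' = j
      · exact ⟨0, fun h => absurd hj h⟩
      · have h5 := y2 j' hj
        have h6 : 1 ≤ Y n (sub (sub w i s) j' s) + Y n (sub (sub w i s) j' (!s)) := by
          cases s
          · exact h5
          · rw [add_comm] at h5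
            exact h5
        by_cases h7 : 1 ≤ Y n (sub (sub w i s) j' s)
        · refine ⟨1, fun _ => ⟨by simpa using h7, by simp⟩⟩
        · refine ⟨0, fun _ => ⟨by simp, ?_⟩⟩
          have h8 : 1 ≤ Y n (sub (sub w i s) j' (!s)) := by omega
          simpa using h8
    choose m hm using hm
    let E1 : Bool → ℤ := fun h => if h = s then 0 else 1
    have hg : ∀ j' h', ∃ g : Pt b n → ℤ, j' ≠ j → Pot (sub (sub w i s) j' h') g ∧
        g (.inl h') = E1 h' ∧ g (.inl (!h')) = m j' := by
      intro j' h'
      by_cases hj : j' = j
      · exact ⟨fun _ => 0, fun h => absurd hj h⟩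
      · by_cases hh : h' = s
        · subst hh
          obtain ⟨g, a1, a2, a3⟩ := ext' h2 (sub (sub w i h') j' h') h' 0 (m j') (hm j' hj).1
          exact ⟨g, fun _ => ⟨a1, by simp [E1, a2], a3⟩⟩
        · have hh' : h' = !s := by
            cases h' <;> cases s <;> simp_all
          subst hh'
          obtain ⟨g, a1, a2, a3⟩ := ext' h2 (sub (sub w i s) j' (!s)) (!s) 1 (m j') (hm j' hj).2
          exact ⟨g, fun _ => ⟨a1, by simp [E1, a2], a3⟩⟩
    choose g hg using hg
    obtain ⟨F1, q1, q2, q3⟩ := glue (sub w i s)
      (fun j' h' => if j' = j then (if h' = s then g1 else fun x => f x + 1) else g j' h')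
      E1 (fun j' => if j' = j then 1 else m j')
      (by
        intro j' h'
        by_cases hj : j' = j
        · subst hj
          by_cases hh : h' = s
          · subst hh
            simpa using g11
          · have hh' : h' = !s := by
              cases h' <;> cases s <;> simp_all
            subst hh'
            simp only [if_true, Bool.not_eq_self, if_false]
            intro e'
            have := p1 e'
            simpa using this
        · simp only [hj, if_false]
          exact (hg j' h' hj).1)
      (by
        intro j' h'
        by_cases hj : j' = j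
        · subst hj
          by_cases hh : h' = s
          · subst hh
            simp [E1, g12]
          · simp [hh, E1, p2]
        · simp only [hj, if_false]
          exact (hg j' h' hj).2.1)
      (by
        intro j' h'
        by_cases hj : j' = j
        · subst hj
          by_cases hh : h' = s
          · subst hh
            simp [g13]
          · simp [hh, p2]
        · simp only [hj, if_false]
          exact (hg j' h' hj).2.2)
    obtain ⟨F, r1, r2, r3⟩ := glue w
      (fun i' h' => if i' = i then (if h' = s then F1 else g3) else fun _ => 0)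
      (fun _ => 0) (fun i' => if i' = i then 1 else 0)
      (by
        intro i' h'
        by_cases hi : i' = i
        · subst hi
          by_cases hh : h' = s
          · subst hh
            simpa using q1
          · have hh' : h' = !s := by
              cases h' <;> cases s <;> simp_all
            subst hh'
            simpa using g31
        · simp only [hi, if_false]
          exact pot_zero _)
      (by
        intro i' h'
        by_cases hi : i' = i
        · subst hi
          by_cases hh : h' = s
          · subst hh
            simp [q2, E1]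
          · have hh' : h' = !s := by
              cases h' <;> cases s <;> simp_all
            subst hh'
            simp [g33]
        · simp [hi])
      (by
        intro i' h'
        by_cases hi : i' = i
        · subst hi
          by_cases hh : h' = s
          · subst hh
            simp [q2, E1]
          · have hh' : h' = !s := by
              cases h' <;> cases s <;> simp_all
            subst hh'
            simp [g32]
        · simp [hi])
    have h4 := (h1 b hb (n + 2) w).1 F
      (Set.range (bd (n + 2) ((i, s, (j, !s, e)) : Edge b (n + 2))))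
      (Set.range Sum.inl) (far (sub (sub w i s) j (!s)) e + 1) (Set.range_nonempty _)
      (Set.range_nonempty _) r1
      (by
        rintro x ⟨t, rfl⟩
        have e1 : F (bd (n + 2) ((i, s, (j, !s, e)) : Edge b (n + 2)) t) =
            f (bd n e t) + 1 := by
          have a1 := r3 i s (emb j (!s) (bd n e t))
          have a2 := q3 j (!s) (bd n e t)
          simp only [if_true, Bool.not_eq_self, if_false] at a1 a2
          rw [a2] at a1
          exact a1
        rw [e1]
        have := p4 e t
        linarith)
      (by
        rintro x ⟨t, rfl⟩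
        exact (r2 t).le)
    exact_mod_cast h4

end Pool.Agent.N409.EP
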