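import Pool.Agent.H216R3.StGrp

/-!
A difference family over `ℤ_7 × (ℤ_3^2 × ℤ_5^2)`, found by computer, and the Steiner system
`S(1576,8,2)`.
-/

set_option autoImplicit false
set_option maxRecDepth 100000

namespace Pool.Agent.N409

open Pool.Agent.H816R2.KM2 Pool.Agent.H216R3.StGrp

/-- base blocks over `ℤ_7 × (ℤ_3^2 × ℤ_5^2)` -/
def d1576 : List (List ℕ) :=
  [[0, 1, 272, 284, 712, 744, 1245, 1331],
  [0, 2, 338, 444, 783, 899, 1165, 1187],
  [0, 5, 363, 422, 814, 871, 1203, 1282],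
  [0, 6, 555, 651, 713, 748, 1471, 1560],
  [0, 7, 527, 605, 819, 868, 1433, 1504],
  [0, 8, 999, 1064, 1215, 1293, 1495, 1538],
  [0, 9, 1018, 1116, 1232, 1327, 1383, 1401],
  [0, 10, 319, 396, 767, 848, 1251, 1314],
  [0, 11, 1043, 1098, 1255, 1306, 1446, 1515],
  [0, 12, 485, 502, 791, 896, 1392, 1420],
  [0, 13, 931, 957, 1164, 1179, 1452, 1561],
  [0, 14, 579, 635, 756, 833, 1486, 1528],
  [0, 25, 755, 870, 1211, 1319, 1439, 1541],
  [0, 27, 359, 448, 788, 844, 1234, 1298],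
  [0, 28, 303, 400, 993, 1085, 1240, 1288],
  [0, 29, 680, 724, 1045, 1109, 1425, 1529],
  [0, 30, 462, 498, 688, 722, 990, 1090],
  [0, 31, 313, 423, 531, 625, 782, 829],
  [0, 34, 1049, 1110, 1243, 1291, 1474, 1510],
  [0, 38, 594, 674, 750, 863, 1136, 1152],
  [0, 43, 366, 427, 1200, 1318, 1364, 1384],
  [0, 46, 529, 647, 996, 1075, 1458, 1518],
  [0, 49, 577, 672, 777, 847, 1454, 1520],
  [0, 75, 729, 776, 1188, 1242, 1418, 1462],
  [0, 76, 457, 549, 697, 759, 953, 1003],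
  [0, 79, 243, 311, 481, 598, 1411, 1468],
  [0, 85, 676, 764, 929, 1036, 1410, 1450],
  [0, 93, 463, 530, 946, 1047, 1180, 1238]]

theorem s1576 : ∃ 𝓑 : Set (Finset (Fin 1576)), IsS2 (Fin 1576) 8 𝓑 :=
  main (ofCoded (codedZ 7)) (codedP 5 (codedP 5 (codedP 3 (codedZ 3)))) 8 1 1576
    (by decide +kernel) d1576 [[0, 1, 2, 3, 4, 5, 6, 7]] [] (by decide +kernel)
    (by decide +kernel) (by decide +kernel) (by decide +kernel)
    (coverB_spec (by decide +kernel)) (by decide +kernel)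

end Pool.Agent.N409
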