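import Pool.Agent.Y345.EightB

/-!
A group divisible design with block size `8` of type `56^13`, found by computer, and the
Steiner system `S(736,8,2)`.
-/

set_option autoImplicit false
set_option maxRecDepth 100000

namespace Pool.Agent.N409

open Pool.Agent.Y345

/-- base blocks of a group divisible design of type `56^13` -/
def b56_13 : List (List ℕ) :=
  [[0, 1, 56, 116, 200, 319, 393, 543],
  [0, 2, 17, 227, 375, 389, 632, 686],
  [0, 3, 125, 238, 503, 521, 656, 726],
  [0, 4, 34, 66, 509, 618, 642, 661],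
  [0, 5, 86, 173, 189, 301, 534, 672],
  [0, 6, 295, 337, 417, 496, 658, 683],
  [0, 7, 28, 48, 57, 188, 567, 673],
  [0, 8, 479, 556, 578, 651, 688, 698],
  [0, 10, 155, 232, 254, 327, 404, 412],
  [0, 11, 49, 100, 185, 267, 433, 513],
  [0, 12, 178, 213, 274, 305, 634, 706],
  [0, 14, 257, 311, 370, 580, 717, 719],
  [0, 18, 153, 223, 463, 589, 592, 714],
  [0, 19, 231, 340, 450, 454, 484, 516],
  [0, 23, 111, 216, 492, 568, 626, 662],
  [0, 25, 123, 202, 365, 407, 434, 440],
  [0, 36, 230, 306, 466, 489, 577, 682],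
  [0, 40, 246, 290, 437, 501, 594, 718],
  [0, 64, 157, 281, 537, 581, 655, 695],
  [0, 72, 368, 399, 458, 470, 636, 671],
  [0, 80, 395, 480, 562, 659, 670, 708],
  [0, 106, 525, 532, 553, 573, 582, 713],
  [0, 138, 367, 383, 495, 558, 563, 644],
  [0, 150, 391, 451, 535, 654, 699, 700]]

theorem g56_13 : Gd 8 (fun i : Fin (13 + 1) => if i = 0 then 0 else 56) :=
  gd_of_chk (m := 364) (c := 2) (g := 13) (hs := []) (base := b56_13) 56 0
    (by decide +kernel) (by norm_num) (by norm_num)

theorem s736 : Sd 8 736 :=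
  sd_of_type (w := 8) (by norm_num) g56_13 (hd_of_sd_block (by norm_num) s64) s8

end Pool.Agent.N409
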