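import Pool.Agent.N409.PBD
import Pool.Agent.TH688.T2.V337

/-!
Difference matrices with eight rows over the groups `ℤ_2^4 × ℤ_3` and `ℤ_2^3 × ℤ_7`, found by
computer, and the Steiner systems `S(2913,8,2)` and `S(3473,8,2)` by Wilson's closure theorem for
truncated transversal designs.
-/

set_option autoImplicit false
set_option maxRecDepth 100000

namespace Pool.Agent.N409

open Pool.Agent.H816R2.KM2 Pool.Agent.TH739.SN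

/-- eight rows of a difference matrix over `ℤ_2^4 × ℤ_3` -/
def dm48 : List (List ℕ) :=
  [[0, 0, 0, 0, 0, 0, 0, 0, 0, 0, 0, 0, 0, 0, 0, 0, 0, 0, 0, 0, 0, 0, 0, 0, 0, 0, 0, 0, 0,
    0, 0, 0, 0, 0, 0, 0, 0, 0, 0, 0, 0, 0, 0, 0, 0, 0, 0, 0],
   [0, 16, 32, 8, 24, 40, 4, 20, 36, 12, 28, 44, 2, 18, 34, 10, 26, 42, 6, 22, 38, 14, 30,
    46, 1, 17, 33, 9, 25, 41, 5, 21, 37, 13, 29, 45, 3, 19, 35, 11, 27, 43, 7, 23, 39, 15,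
    31, 47],
   [5, 32, 14, 18, 25, 33, 2, 39, 24, 42, 22, 46, 38, 13, 44, 17, 9, 3, 45, 27, 1, 26, 15,
    16, 35, 8, 41, 20, 12, 6, 40, 30, 4, 31, 10, 21, 0, 37, 11, 23, 28, 36, 7, 34, 29, 47,
    19, 43],
   [2, 40, 23, 34, 6, 14, 1, 26, 20, 30, 13, 5, 47, 19, 9, 16, 42, 37, 32, 10, 43, 31, 29,
    39, 41, 21, 15, 22, 44, 35, 38, 12, 45, 25, 27, 33, 4, 46, 17, 36, 0, 8, 7, 28, 18, 24,
    11, 3],
   [35, 7, 12, 2, 44, 16, 28, 15, 4, 1, 25, 19, 38, 20, 32, 27, 8, 36, 42, 41, 47, 23, 31,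
    11, 39, 21, 33, 26, 9, 37, 43, 40, 46, 22, 30, 10, 34, 6, 13, 3, 45, 17, 29, 14, 5, 0,
    24, 18],
   [28, 20, 47, 9, 43, 1, 39, 24, 35, 14, 44, 16, 40, 13, 27, 29, 17, 5, 32, 6, 2, 21, 10,
    38, 42, 15, 25, 31, 19, 7, 34, 4, 0, 23, 8, 36, 30, 22, 45, 11, 41, 3, 37, 26, 33, 12,
    46, 18],
   [24, 34, 7, 21, 43, 9, 32, 45, 25, 46, 39, 19, 12, 18, 20, 6, 4, 44, 11, 10, 37, 1, 27,
    30, 8, 22, 16, 2, 0, 40, 15, 14, 33, 5, 31, 26, 28, 38, 3, 17, 47, 13, 36, 41, 29, 42,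
    35, 23],
   [32, 41, 29, 38, 43, 31, 28, 19, 22, 25, 21, 23, 9, 7, 40, 11, 36, 1, 10, 34, 4, 8, 2,
    42, 14, 0, 47, 12, 35, 6, 13, 37, 3, 15, 5, 45, 39, 46, 26, 33, 44, 24, 27, 20, 17, 30,
    18, 16]]

theorem okDM48 : okDM (codedP 2 (codedP 2 (codedP 2 (codedP 2 (codedZ 3))))) 8 dm48 = true := by
  decide +kernel

/-- eight rows of a difference matrix over `ℤ_2^3 × ℤ_7` -/
def dm56 : List (List ℕ) :=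
  [[0, 1, 12, 11, 38, 37, 18, 23, 0, 34, 4, 37, 14, 17, 15, 19, 0, 20, 35, 13, 6, 23, 34,
    9, 0, 17, 22, 5, 39, 12, 10, 35, 0, 14, 20, 33, 21, 39, 2, 11, 0, 33, 13, 18, 22, 15,
    36, 3, 0, 9, 36, 21, 10, 7, 19, 38],
   [0, 0, 8, 14, 32, 34, 16, 20, 35, 0, 38, 6, 20, 10, 20, 9, 21, 0, 14, 33, 18, 2, 14, 36,
    16, 0, 6, 20, 9, 35, 36, 12, 15, 0, 34, 22, 34, 17, 12, 4, 32, 0, 17, 15, 10, 18, 4,
    34, 8, 0, 22, 38, 2, 14, 33, 21],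
   [8, 13, 0, 3, 21, 18, 37, 36, 0, 35, 0, 32, 8, 22, 13, 16, 39, 11, 0, 22, 37, 12, 5, 22,
    18, 3, 0, 19, 13, 38, 36, 13, 16, 39, 0, 12, 5, 14, 22, 38, 9, 20, 0, 35, 35, 6, 21,
    14, 32, 19, 0, 11, 20, 35, 9, 6],
   [14, 10, 2, 0, 21, 19, 33, 33, 32, 2, 33, 0, 17, 14, 21, 9, 8, 37, 23, 0, 11, 35, 19, 1,
    0, 16, 18, 0, 33, 11, 8, 32, 36, 18, 13, 0, 9, 3, 35, 18, 23, 11, 34, 0, 1, 37, 11, 17,
    16, 34, 10, 0, 36, 18, 3, 13],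
   [32, 39, 23, 22, 0, 5, 15, 12, 8, 19, 10, 18, 0, 38, 7, 34, 0, 21, 39, 8, 0, 16, 32, 10,
    33, 14, 15, 34, 0, 21, 21, 2, 19, 37, 7, 10, 0, 10, 23, 38, 16, 13, 33, 2, 0, 37, 14,
    21, 12, 5, 22, 39, 0, 13, 39, 18],
   [34, 36, 17, 17, 4, 0, 15, 13, 22, 12, 21, 12, 39, 0, 33, 5, 16, 4, 15, 33, 17, 0, 9,
    34, 11, 37, 37, 9, 20, 0, 1, 23, 32, 23, 13, 1, 11, 0, 37, 21, 8, 20, 5, 39, 36, 0, 22,
    12, 0, 8, 32, 16, 12, 0, 17, 37],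
   [16, 19, 35, 38, 11, 10, 0, 7, 13, 23, 11, 18, 3, 36, 0, 36, 32, 13, 3, 20, 36, 12, 0,
    18, 8, 39, 34, 15, 17, 4, 0, 23, 0, 15, 16, 36, 19, 32, 0, 8, 38, 7, 19, 12, 10, 19, 0,
    39, 17, 34, 15, 4, 35, 20, 0, 15],
   [20, 22, 35, 39, 9, 9, 6, 0, 16, 11, 23, 15, 39, 1, 37, 0, 10, 38, 17, 7, 15, 38, 19, 0,
    32, 14, 10, 38, 7, 19, 22, 0, 8, 6, 33, 20, 35, 17, 9, 0, 0, 32, 9, 23, 16, 8, 38, 0,
    37, 23, 1, 11, 23, 33, 14, 0]]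

theorem okDM56 : okDM (codedP 2 (codedP 2 (codedP 2 (codedZ 7)))) 8 dm56 = true := by
  decide +kernel

theorem ok7_48 : Ok 7 48 := ok_of (g := 7) (n := 48) rfl rfl Pool.Agent.TH688.T2.ex337

/-- `400 = 7 * 57 + 1` -/
theorem ok7_57 : Ok 7 57 := inflate (by norm_num) d57 (by norm_num) ok7_8

/-- `2913 = 7 (8 * 48 + 32) + 1` -/
theorem ok7_416 : Ok 7 416 :=
  truncated_dm (m := 8) (q := 48) (s := 32) (e := 0) (by norm_num)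
    (codedP 2 (codedP 2 (codedP 2 (codedP 2 (codedZ 3))))) dm48 okDM48 rfl
    (by norm_num) (by norm_num) ok7_8 ok7_9 ok7_48 ok7_32

/-- `3473 = 7 (8 * 56 + 47 + 1) + 1` -/
theorem ok7_496 : Ok 7 496 :=
  truncated_dm (m := 8) (q := 56) (s := 47) (e := 1) (by norm_num)
    (codedP 2 (codedP 2 (codedP 2 (codedZ 7)))) dm56 okDM56 rfl
    (by norm_num) (by norm_num) ok7_8 ok7_9 ok7_57 ok7_48

end Pool.Agent.N409
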