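import Mathlib
import Pool.Agent.N212.KS.Stm

/-!
# Project KS: maximal rank gives separated characters
-/

open Filter Topology

namespace Pool.Agent.N409.KS

open Pool.Agent.N212.KS

universe w z

variable {G : Type w} {ι : Type z} [CommGroup G] [Fintype ι]

/-- `w` is approximated by the logarithms with a bounded error, at all scales. -/
def Appr (χ : ι → G →* ℝ) (w : ι → ℝ) : Prop :=
  ∃ C : ℝ, ∀ M : ℝ, ∃ g : G, ∀ j, |Real.log (χ j g) - M * w j| ≤ C

theorem appr_of_mem (χ : ι → G →* ℝ) (hpos : ∀ i g, 0 < χ i g) {w : ι → ℝ}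
    (hw : w ∈ Submodule.span ℝ (Set.range fun (g : G) (i : ι) => Real.log (χ i g))) :
    Appr χ w := by
  induction hw using Submodule.span_induction with
  | mem x hx =>
    obtain ⟨g0, rfl⟩ := hx
    refine ⟨∑ j, |Real.log (χ j g0)|, fun M => ⟨g0 ^ ⌊M⌋, fun j => ?_⟩⟩
    have h1 : Real.log (χ j (g0 ^ ⌊M⌋)) = ⌊M⌋ * Real.log (χ j g0) := by
      have h2 : χ j (g0 ^ ⌊M⌋) = χ j g0 ^ ⌊M⌋ := by
        have h3 : χ j g0 ≠ 0 := (hpos j g0).ne'
        have h4 : ∀ n : ℕ, χ j (g0 ^ n) = χ j g0 ^ n := fun n => map_pow _ _ _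
        have h5 : ∀ g : G, χ j g⁻¹ = (χ j g)⁻¹ := by
          intro g
          have : χ j g * χ j g⁻¹ = 1 := by rw [← map_mul, mul_inv_cancel, map_one]
          exact (eq_inv_of_mul_eq_one_right this)
        rcases ⌊M⌋ with n | n
        · simp [h4]
        · rw [zpow_negSucc, zpow_negSucc, h5, h4]
      rw [h2, Real.log_zpow]
    rw [h1, ← sub_mul, abs_mul]
    have h6 : |(⌊M⌋ : ℝ) - M| ≤ 1 := by
      rw [abs_sub_comm, abs_of_nonneg (sub_nonneg.2 (Int.floor_le M))]
      linarith [Int.lt_floor_add_one M]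
    calc |(⌊M⌋ : ℝ) - M| * |Real.log (χ j g0)| ≤ 1 * |Real.log (χ j g0)| := by gcongr
      _ = |Real.log (χ j g0)| := one_mul _
      _ ≤ ∑ j, |Real.log (χ j g0)| :=
        Finset.single_le_sum (f := fun j => |Real.log (χ j g0)|) (fun _ _ => abs_nonneg _)
          (Finset.mem_univ j)
  | zero => exact ⟨0, fun M => ⟨1, fun j => by simp⟩⟩
  | add x y _ _ hx hy =>
    obtain ⟨C, hC⟩ := hx
    obtain ⟨C', hC'⟩ := hy
    refine ⟨C + C', fun M => ?_⟩
    obtain ⟨g, hg⟩ := hC M
    obtain ⟨g', hg'⟩ := hC' M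
    refine ⟨g * g', fun j => ?_⟩
    rw [map_mul, Real.log_mul (hpos j g).ne' (hpos j g').ne', Pi.add_apply]
    have e : Real.log (χ j g) + Real.log (χ j g') - M * (x j + y j) =
        (Real.log (χ j g) - M * x j) + (Real.log (χ j g') - M * y j) := by ring
    rw [e]
    exact (abs_add_le _ _).trans (add_le_add (hg j) (hg' j))
  | smul r x _ hx =>
    obtain ⟨C, hC⟩ := hx
    refine ⟨C, fun M => ?_⟩
    obtain ⟨g, hg⟩ := hC (M * r)
    refine ⟨g, fun j => ?_⟩
    have e : M * (r • x) j = M * r * x j := by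
      rw [Pi.smul_apply, smul_eq_mul]
      ring
    rw [e]
    exact hg j

theorem t_RANK : S_RANK.{w, z} := by
  intro G ι _ _ χ hpos hmax i
  classical
  obtain ⟨hnt, hspan⟩ := hmax
  have hcard : 2 ≤ Fintype.card ι := Fintype.one_lt_card_iff_nontrivial.2 hnt
  have hcard' : (2 : ℝ) ≤ Fintype.card ι := by exact_mod_cast hcard
  let v : ι → ℝ := fun j => (if j = i then (Fintype.card ι : ℝ) else 0) - 1
  have hv : ∑ j, v j = 0 := by
    simp only [v, Finset.sum_sub_distrib, Finset.sum_ite_eq', Finset.mem_univ, if_true,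
      Finset.sum_const, Finset.card_univ, nsmul_eq_mul, mul_one, sub_self]
  obtain ⟨C, hC⟩ := appr_of_mem χ hpos (hspan v hv)
  obtain ⟨g, hg⟩ := hC (|C| + 1)
  have hM : 0 < |C| + 1 := by positivity
  refine ⟨g, ?_, fun j hj => ?_⟩
  · have h1 := hg i
    have h2 : v i = (Fintype.card ι : ℝ) - 1 := by simp [v]
    rw [h2] at h1
    have h3 := (abs_le.1 h1).1
    have h4 : 0 < Real.log (χ i g) := by nlinarith [le_abs_self C]
    exact (Real.log_pos_iff (hpos i g).le).1 h4
  · have h1 := hg j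
    have h2 : v j = -1 := by simp [v, hj]
    rw [h2] at h1
    have h3 := (abs_le.1 h1).2
    have h4 : Real.log (χ j g) < 0 := by nlinarith [le_abs_self C]
    exact ((Real.log_neg_iff (hpos j g)).1 h4).le

end Pool.Agent.N409.KS
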