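import Pool.Agent.H216R3.StGrp

/-!
A difference family over `(ℤ_3^2) × (ℤ_3^2 × ℤ_5^2)`, found by computer, and the Steiner system
`S(2025,9,2)`.
-/

set_option autoImplicit false
set_option maxRecDepth 100000

namespace Pool.Agent.N409

open Pool.Agent.H816R2.KM2 Pool.Agent.H216R3.StGrp

/-- base blocks over `(ℤ_3^2) × (ℤ_3^2 × ℤ_5^2)` -/
def d2025 : List (List ℕ) :=
  [[0, 1, 77, 79, 1278, 1635, 1641, 1684, 1697],
  [0, 5, 185, 195, 1188, 1197, 1329, 1331, 1715],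
  [0, 8, 86, 97, 1294, 1627, 1631, 1685, 1698],
  [0, 25, 325, 375, 500, 1200, 1300, 1925, 2000],
  [0, 26, 107, 230, 616, 814, 1083, 1396, 1811],
  [0, 27, 168, 267, 570, 884, 991, 1360, 1830],
  [0, 28, 162, 263, 555, 896, 989, 1365, 1845],
  [0, 29, 123, 245, 614, 816, 1097, 1384, 1819],
  [0, 30, 147, 345, 581, 721, 1092, 1440, 1829],
  [0, 31, 215, 387, 669, 676, 996, 1543, 1817],
  [0, 32, 122, 238, 611, 819, 1079, 1399, 1803],
  [0, 33, 104, 243, 602, 803, 1082, 1390, 1814],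
  [0, 34, 206, 388, 664, 697, 985, 1542, 1820],
  [0, 35, 221, 395, 653, 698, 981, 1530, 1812],
  [0, 36, 163, 255, 562, 885, 977, 1356, 1843],
  [0, 37, 132, 343, 584, 710, 1095, 1431, 1833],
  [0, 38, 126, 342, 590, 724, 1093, 1434, 1848],
  [0, 39, 170, 268, 567, 881, 986, 1371, 1838],
  [0, 40, 209, 380, 652, 682, 999, 1545, 1818],
  [0, 41, 155, 262, 563, 899, 994, 1359, 1842],
  [0, 42, 129, 338, 585, 706, 1087, 1446, 1832],
  [0, 43, 148, 337, 596, 715, 1080, 1449, 1847],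
  [0, 44, 167, 270, 568, 890, 978, 1374, 1837],
  [0, 45, 133, 330, 599, 709, 1088, 1435, 1826],
  [0, 46, 224, 392, 666, 683, 990, 1538, 1805],
  [0, 47, 101, 237, 603, 802, 1098, 1385, 1816],
  [0, 48, 108, 242, 619, 811, 1076, 1381, 1802],
  [0, 49, 210, 393, 661, 679, 984, 1537, 1813]]

theorem s2025 : ∃ 𝓑 : Set (Finset (Fin 2025)), IsS2 (Fin 2025) 9 𝓑 :=
  main (ofCoded (codedP 3 (codedZ 3))) (codedP 5 (codedP 5 (codedP 3 (codedZ 3)))) 9 0 2025
    (by decide +kernel) d2025 [[0, 1, 2, 3, 4, 5, 6, 7, 8]] [] (by decide +kernel)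
    (by decide +kernel) (by decide +kernel) (by decide +kernel)
    (coverB_spec (by decide +kernel)) (by decide +kernel)

end Pool.Agent.N409
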