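import Pool.Agent.TH739.SN.DM
import Pool.Agent.TH739.SN.Base8
import Pool.Agent.TH887.ST.V225

/-!
Wilson's closure theorem: tools for the orders of this folder (the form of the result, the weight
`k - 1` for the points of a Steiner system) and the small orders for block size `8`.
-/

set_option autoImplicit false

namespace Pool.Agent.N409

open Pool.Agent.H816R2.KM2 Pool.Agent.TH739.SN

/-- a system gives an order of the closure -/
theorem ok_of {g n v k : ℕ} (hk : g + 1 = k) (hv : g * n + 1 = v)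
    (h : ∃ 𝓑 : Set (Finset (Fin v)), IsS2 (Fin v) k 𝓑) : Ok g n := by
  subst hk
  subst hv
  exact h

theorem toSystem {m k : ℕ} (h : ∃ 𝓑 : Set (Finset (Fin m)), IsS2 (Fin m) k 𝓑) :
    ∃ B : Finset (Finset (Fin m)), (∀ b ∈ B, b.card = k) ∧
      ∀ T : Finset (Fin m), T.card = 2 → ∃! b, b ∈ B ∧ T ⊆ b := by
  classical
  obtain ⟨𝓑, h1, h2⟩ := h
  refine ⟨Finset.univ.filter (fun B => B ∈ 𝓑), ?_, ?_⟩
  · intro B hB
    exact h1 B (Finset.mem_filter.1 hB).2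
  · intro T hT
    obtain ⟨a, b, hab, rfl⟩ := Finset.card_eq_two.1 hT
    obtain ⟨B, ⟨hB, ha, hb⟩, hu⟩ := h2 a b hab
    have hsub : ∀ C : Finset (Fin m), ({a, b} : Finset (Fin m)) ⊆ C ↔ a ∈ C ∧ b ∈ C := by
      intro C
      rw [Finset.insert_subset_iff, Finset.singleton_subset_iff]
    refine ⟨B, ⟨Finset.mem_filter.2 ⟨Finset.mem_univ _, hB⟩, (hsub B).2 ⟨ha, hb⟩⟩, ?_⟩
    rintro C ⟨hC, hC'⟩
    obtain ⟨ha', hb'⟩ := (hsub C).1 hC'
    exact hu C ⟨(Finset.mem_filter.1 hC).2, ha', hb'⟩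

/-- the systems of the closure in the form of the result -/
theorem sys {g n v k : ℕ} (hk : g + 1 = k) (hv : g * n + 1 = v) (h : Ok g n) :
    ∃ B : Finset (Finset (Fin v)), (∀ b ∈ B, b.card = k) ∧
      ∀ T : Finset (Fin v), T.card = 2 → ∃! b, b ∈ B ∧ T ⊆ b := by
  subst hk
  subst hv
  exact toSystem h

/-- weight `k - 1` for the points of a Steiner system `S(n,k,2)` -/
theorem inflate {g n : ℕ} (hg : 0 < g)
    (h : ∃ 𝓑 : Set (Finset (Fin n)), IsS2 (Fin n) (g + 1) 𝓑) (hn : 1 < n) (hq : Ok g (g + 1)) :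
    Ok g n := by
  classical
  obtain ⟨𝓑, h1, h2⟩ := h
  have hc := closure (g := g) (X := Fin n) (Λ := {B : Finset (Fin n) // B ∈ 𝓑})
    (inc := fun x l => x ∈ l.1) hg ?_ ?_ ?_
  · unfold Ok
    rwa [Nat.card_eq_fintype_card, Fintype.card_fin] at hc
  · intro x y hxy
    obtain ⟨B, ⟨hB, hx, hy⟩, hu⟩ := h2 x y hxy
    refine ⟨⟨B, hB⟩, ⟨hx, hy⟩, ?_⟩
    rintro ⟨C, hC⟩ ⟨hx', hy'⟩
    exact Subtype.ext (hu C ⟨hC, hx', hy'⟩)
  · intro x
    have : Nontrivial (Fin n) := Fin.nontrivial_iff_two_le.2 hn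
    obtain ⟨y, hy⟩ := exists_ne x
    obtain ⟨B, ⟨hB, hx, -⟩, -⟩ := h2 x y hy.symm
    exact ⟨⟨B, hB⟩, hx⟩
  · rintro ⟨B, hB⟩
    have e : Nat.card (Pts (fun (x : Fin n) (l : {B : Finset (Fin n) // B ∈ 𝓑}) => x ∈ l.1) ⟨B, hB⟩)
        = g + 1 := by
      rw [← h1 B hB]
      exact (Nat.card_eq_fintype_card (α := {x : Fin n // x ∈ B})).trans (Fintype.card_coe B)
    rw [e]
    exact hq

theorem ok7_8 : Ok 7 8 := ok_of (g := 7) (n := 8) rfl rfl d57

theorem ok7_9 : Ok 7 9 := ok_of (g := 7) (n := 9) rfl rfl d64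

theorem ok7_32 : Ok 7 32 := ok_of (g := 7) (n := 32) rfl rfl Pool.Agent.TH887.ST.ex225

end Pool.Agent.N409
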