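import Pool.Agent.N699.PC.Stm

set_option autoImplicit false

/-! Project Q3 (helper699): the leaves REC, SPL and LIM (helper409). -/

namespace Pool.Agent.N409.Q3

open Finset PowerSeries
open Pool.Agent.N699.PC

theorem ee_succ (n : ℕ) : ee (n + 1) = ee n * (1 - X ^ (2 * n + 2)) := by
  unfold ee
  rw [prod_range_succ]

theorem OO_succ (n : ℕ) : OO (n + 1) = OO n * (1 - X ^ (4 * n + 2)) := by
  unfold OO
  rw [prod_range_succ]

theorem pp_succ (n : ℕ) : pp (n + 1) = pp n * (1 + X ^ (2 * n + 2)) := by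
  unfold pp
  rw [prod_range_succ]

theorem ee_iv (n : ℕ) : ee n * iv (ee n) = 1 := by
  unfold iv
  refine mul_invOfUnit _ _ ?_
  unfold ee
  rw [map_prod, Units.val_one]
  refine prod_eq_one fun i _ => ?_
  simp

theorem iv_succ (n : ℕ) : iv (ee n) = iv (ee (n + 1)) * (1 - X ^ (2 * n + 2)) := by
  have h1 := ee_iv n
  have h2 := ee_iv (n + 1)
  rw [ee_succ] at h2 ⊢
  have h3 : iv (ee n) = iv (ee n) * (ee n * (1 - X ^ (2 * n + 2)) *
      iv (ee n * (1 - X ^ (2 * n + 2)))) := by rw [h2, mul_one]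
  rw [h3]
  linear_combination (iv (ee n * (1 - X ^ (2 * n + 2))) * (1 - X ^ (2 * n + 2))) * h1

theorem t_SPL : SPL := by
  intro n
  induction n with
  | zero => simp [OO, ee, pp]
  | succ n ih =>
    have e : 2 * (n + 1) = 2 * n + 1 + 1 := by ring
    rw [e, ee_succ (2 * n + 1), ee_succ (2 * n), ← ih, OO_succ, ee_succ, pp_succ]
    ring

theorem lim_aux (a b : ℕ) (hab : a ≤ b) : X ^ (2 * a + 2) ∣ ee b * iv (ee a) - 1 := by
  induction b, hab using Nat.le_induction with
  | base => rw [ee_iv, sub_self]; exact dvd_zero _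
  | succ b hb ih =>
    have e : ee (b + 1) * iv (ee a) - 1 =
        (ee b * iv (ee a) - 1) * (1 - X ^ (2 * b + 2)) - X ^ (2 * b + 2) := by
      rw [ee_succ]
      ring
    rw [e]
    exact dvd_sub (ih.mul_right _) (pow_dvd_pow _ (by omega))

theorem t_LIM : LIM := by
  intro k M hk
  have h1 := lim_aux (M - k) M (by omega)
  have h2 := (pow_dvd_pow (X : ℤ⟦X⟧) (show 2 * (M - k) + 2 ≤ 2 * (M + k) + 2 by omega)).trans
    (lim_aux (M + k) (2 * M) (by omega))
  have e : ee (2 * M) * ee M * iv (ee (M - k)) * iv (ee (M + k)) - 1 =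
      (ee M * iv (ee (M - k)) - 1) * (ee (2 * M) * iv (ee (M + k))) +
        (ee (2 * M) * iv (ee (M + k)) - 1) := by ring
  rw [e]
  exact dvd_add (h1.mul_right _) h2

theorem F_one (k t : ℕ) : F k (k + 1 + (t + 1)) = F k (k + 1 + t) +
    X ^ (2 * (k + 1 + t)) * ee (k + 1 + t) * OO (k + 1 + t) * iv (ee (t + 1)) *
      iv (ee (2 * k + t + 1)) := by
  unfold F
  rw [show k + 1 + (t + 1) = (k + 1 + t) + 1 by ring, sum_Ico_succ_top (by omega),
    show k + 1 + t - k = t + 1 by omega, show k + 1 + t + k = 2 * k + t + 1 by ring]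

theorem F_two (k t : ℕ) : F (k + 2) (k + 1 + (t + 1)) = F (k + 2) (k + 1 + t) +
    X ^ (2 * (k + 1 + t)) * ee (k + 1 + t) * OO (k + 1 + t) * (iv (ee t) * (1 - X ^ (2 * t))) *
      iv (ee (2 * k + t + 3)) := by
  rcases t with _ | s
  · have h1 : F (k + 2) (k + 1 + (0 + 1)) = 0 := by
      unfold F
      rw [Ico_eq_empty_of_le (by omega), sum_empty]
    have h2 : F (k + 2) (k + 1 + 0) = 0 := by
      unfold F
      rw [Ico_eq_empty_of_le (by omega), sum_empty]
    rw [h1, h2]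
    simp
  · unfold F
    rw [show k + 1 + (s + 1 + 1) = (k + 1 + (s + 1)) + 1 by ring, sum_Ico_succ_top (by omega),
      show k + 1 + (s + 1) - (k + 2) = s by omega,
      show k + 1 + (s + 1) + (k + 2) = 2 * k + (s + 1) + 3 by ring, iv_succ s,
      show 2 * (s + 1) = 2 * s + 2 by ring]

theorem rec_aux (k t : ℕ) : F k (k + 1 + t) + X ^ (6 * k + 6) * F (k + 2) (k + 1 + t) =
    X ^ (2 * k) * (1 + X ^ (2 * k + 2)) * ee (k + 1 + t) * OO (k + 1 + t) * iv (ee t) *
      iv (ee (2 * k + t + 2)) := by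
  induction t with
  | zero =>
    have h1 : F (k + 2) (k + 1 + 0) = 0 := by
      unfold F
      rw [Ico_eq_empty_of_le (by omega), sum_empty]
    have h2 : F k (k + 1 + 0) = X ^ (2 * k) * ee k * OO k * iv (ee 0) * iv (ee (2 * k)) := by
      unfold F
      rw [add_zero, Nat.Ico_succ_singleton, sum_singleton, Nat.sub_self,
        show k + k = 2 * k by ring]
    rw [h1, h2, add_zero k.succ, show 2 * k + 0 + 2 = 2 * k + 1 + 1 by ring,
      show k.succ = k + 1 from rfl, ee_succ k, OO_succ k, iv_succ (2 * k), iv_succ (2 * k + 1)]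
    ring
  | succ t ih =>
    rw [F_one, F_two, show 2 * k + (t + 1) + 2 = 2 * k + t + 3 by ring,
      show k + 1 + (t + 1) = (k + 1 + t) + 1 by ring, ee_succ (k + 1 + t), OO_succ (k + 1 + t)]
    have i1 : iv (ee t) = iv (ee (t + 1)) * (1 - X ^ (2 * t + 2)) := iv_succ t
    have i2 : iv (ee (2 * k + t + 2)) = iv (ee (2 * k + t + 3)) *
      (1 - X ^ (2 * (2 * k + t + 2) + 2)) := iv_succ (2 * k + t + 2)
    have i3 : iv (ee (2 * k + t + 1)) = iv (ee (2 * k + t + 2)) *
      (1 - X ^ (2 * (2 * k + t + 1) + 2)) := iv_succ (2 * k + t + 1)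
    rw [i3, i2, i1]
    rw [i2, i1] at ih
    generalize iv (ee (t + 1)) = I1 at *
    generalize iv (ee (2 * k + t + 3)) = I2 at *
    generalize ee (k + 1 + t) = E at *
    generalize OO (k + 1 + t) = O at *
    linear_combination ih

theorem t_REC : REC := by
  intro k M hM
  obtain ⟨t, rfl⟩ := Nat.exists_eq_add_of_le hM
  rw [rec_aux, show k + 1 + t - k - 1 = t by omega, show k + 1 + t + k + 1 = 2 * k + t + 2 by ring]

end Pool.Agent.N409.Q3
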