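import Pool.Agent.N409.PBD

/-!
Linear spaces with parallel classes: a point at infinity is added to some of the classes, and the
closure theorem is applied.  One-rotational resolvable designs over `H × Q` whose base blocks have
distinct non-zero `Q`-parts.  The resolvable design `(288,8,1)` over `ℤ_7 × ℤ_41`, found by
computer, gives the Steiner system `S(2241,8,2)`.
-/

set_option autoImplicit false

namespace Pool.Agent.N409

open Pool.Agent.TH739.SN

section res

variable {X Λ R : Type}

/-- new points at infinity on the classes in `S`, and the line of these points -/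
def rinc (inc : X → Λ → Prop) (cls : Λ → Option R) (S : Set R) : X ⊕ S → Λ ⊕ Unit → Prop
  | Sum.inl x, Sum.inl l => inc x l
  | Sum.inr s, Sum.inl l => cls l = some s.1
  | Sum.inl _, Sum.inr _ => False
  | Sum.inr _, Sum.inr _ => True

theorem rinc_unique {inc : X → Λ → Prop}
    (hinc : ∀ x y, x ≠ y → ∃! l, inc x l ∧ inc y l) (cls : Λ → Option R)
    (hcls : ∀ x r, ∃! l, cls l = some r ∧ inc x l) (S : Set R) (x y : X ⊕ S) (hxy : x ≠ y) :
    ∃! l, rinc inc cls S x l ∧ rinc inc cls S y l := by
  have k2 : ∀ (x : X) (s : S),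
      ∃! l, rinc inc cls S (Sum.inl x) l ∧ rinc inc cls S (Sum.inr s) l := by
    intro x s
    obtain ⟨l, ⟨h1, h2⟩, h3⟩ := hcls x s.1
    refine ⟨Sum.inl l, ⟨h2, h1⟩, ?_⟩
    rintro (l' | _) ⟨h4, h5⟩
    · exact congrArg Sum.inl (h3 l' ⟨h5, h4⟩)
    · exact h4.elim
  rcases x with x | s <;> rcases y with y | s'
  · obtain ⟨l, ⟨h1, h2⟩, h3⟩ := hinc x y (fun h => hxy (by rw [h]))
    refine ⟨Sum.inl l, ⟨h1, h2⟩, ?_⟩
    rintro (l' | _) ⟨h4, h5⟩
    · exact congrArg Sum.inl (h3 l' ⟨h4, h5⟩)
    · exact h4.elim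
  · exact k2 x s'
  · obtain ⟨l, ⟨h1, h2⟩, h3⟩ := k2 y s
    exact ⟨l, ⟨h2, h1⟩, fun l' h' => h3 l' ⟨h'.2, h'.1⟩⟩
  · refine ⟨Sum.inr (), ⟨trivial, trivial⟩, ?_⟩
    rintro (l' | _) ⟨h4, h5⟩
    · have h4' : cls l' = some s.1 := h4
      have h5' : cls l' = some s'.1 := h5
      exact absurd (congrArg Sum.inr (Subtype.ext (Option.some.inj (h4'.symm.trans h5')))) hxy
    · rfl

/-- **Points at infinity.** -/
theorem ok_res {g : ℕ} (hg : 0 < g) [Finite X] [Finite R] {inc : X → Λ → Prop}
    (hinc : ∀ x y, x ≠ y → ∃! l, inc x l ∧ inc y l) (hpt : ∀ x, ∃ l, inc x l)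
    (cls : Λ → Option R) (hcls : ∀ x r, ∃! l, cls l = some r ∧ inc x l)
    {s : ℕ} (hs : s ≤ Nat.card R) (hl : ∀ l, Ok g (Nat.card (Pts inc l)))
    (hl' : ∀ l, cls l ≠ none → Ok g (Nat.card (Pts inc l) + 1)) (hS : Ok g s) :
    Ok g (Nat.card X + s) := by
  classical
  have := Fintype.ofFinite R
  obtain ⟨S, -, hS'⟩ := Finset.exists_subset_card_eq
    (show s ≤ (Finset.univ : Finset R).card by
      rw [Finset.card_univ, ← Nat.card_eq_fintype_card]; exact hs)
  have hcS : Nat.card (S : Set R) = s := by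
    rw [Nat.card_coe_set_eq, Set.ncard_coe_finset, hS']
  have h := closure (g := g) hg (rinc_unique hinc cls hcls (S : Set R)) ?_ ?_
  · have hX : Nat.card (X ⊕ (S : Set R)) = Nat.card X + s := by
      rw [Nat.card_sum, hcS]
    rw [hX] at h
    exact h
  · rintro (x | s)
    · obtain ⟨l, h⟩ := hpt x
      exact ⟨Sum.inl l, h⟩
    · exact ⟨Sum.inr (), trivial⟩
  · rintro (l | _)
    · have e0 : Nat.card (Pts (rinc inc cls (S : Set R)) (Sum.inl l)) =
          Nat.card (Pts inc l) + Nat.card {t : (S : Set R) // cls l = some t.1} := by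
        unfold Pts
        rw [Nat.card_congr Equiv.subtypeSum, Nat.card_sum]
        rfl
      have hsub : Subsingleton {t : (S : Set R) // cls l = some t.1} := by
        constructor
        rintro ⟨a, ha⟩ ⟨b, hb⟩
        exact Subtype.ext (Subtype.ext (Option.some.inj (ha.symm.trans hb)))
      have h1 := Finite.card_le_one_iff_subsingleton.2 hsub
      change Ok g _
      rw [e0]
      rcases Nat.eq_zero_or_pos (Nat.card {t : (S : Set R) // cls l = some t.1}) with h2 | h2
      · rw [h2]
        exact hl l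
      · have h3 : Nat.card {t : (S : Set R) // cls l = some t.1} = 1 := by omega
        rw [h3]
        obtain ⟨⟨t, ht⟩⟩ := (Nat.card_pos_iff.1 h2).1
        exact hl' l (by rw [ht]; simp)
    · have e2 : Nat.card (Pts (rinc inc cls (S : Set R)) (Sum.inr ())) = s := by
        unfold Pts
        rw [Nat.card_congr Equiv.subtypeSum, Nat.card_sum]
        have e1 : Nat.card {x : X // rinc inc cls (S : Set R) (Sum.inl x) (Sum.inr ())} = 0 := by
          have : IsEmpty {x : X // rinc inc cls (S : Set R) (Sum.inl x) (Sum.inr ())} :=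
            ⟨fun t => t.2⟩
          exact Nat.card_of_isEmpty
        have e2 : Nat.card {x : (S : Set R) // rinc inc cls (S : Set R) (Sum.inr x) (Sum.inr ())}
            = Nat.card (S : Set R) := Nat.card_congr (Equiv.subtypeUnivEquiv fun _ => trivial)
        rw [e1, e2, hcS, Nat.zero_add]
      rw [e2]
      exact hS

end res

section rot

variable {H Q : Type} [AddCommGroup H] [AddCommGroup Q] {t k : ℕ}

/-- the one-rotational linear space: the translates of the base blocks, and `{∞} ∪ H × {q}` -/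
def oinc (b : Fin t → Fin k → H × Q) : Option (H × Q) → (Fin t × (H × Q)) ⊕ Q → Prop
  | none, Sum.inl _ => False
  | none, Sum.inr _ => True
  | some p, Sum.inl l => ∃ i, p = b l.1 i + l.2
  | some p, Sum.inr q => p.2 = q

/-- the parallel class of a line -/
def ocls : (Fin t × (H × Q)) ⊕ Q → Option Q
  | Sum.inl l => some l.2.2
  | Sum.inr q => some q

theorem oinc_unique (b : Fin t → Fin k → H × Q)
    (hA : ∀ d : H × Q, d.2 ≠ 0 → ∃! x : Fin t × Fin k × Fin k, b x.1 x.2.1 - b x.1 x.2.2 = d)
    (hB : ∀ a i j, (b a i).2 = (b a j).2 → i = j)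
    (x y : Option (H × Q)) (hxy : x ≠ y) : ∃! l, oinc b x l ∧ oinc b y l := by
  have k2 : ∀ (p : H × Q), ∃! l, oinc b none l ∧ oinc b (some p) l := by
    intro p
    refine ⟨Sum.inr p.2, ⟨trivial, rfl⟩, ?_⟩
    rintro (l' | q) ⟨h4, h5⟩
    · exact h4.elim
    · have h5' : p.2 = q := h5
      rw [h5']
  rcases x with _ | x <;> rcases y with _ | y
  · exact absurd rfl hxy
  · exact k2 y
  · obtain ⟨l, ⟨h1, h2⟩, h3⟩ := k2 x
    exact ⟨l, ⟨h2, h1⟩, fun l' h' => h3 l' ⟨h'.2, h'.1⟩⟩
  · by_cases hq : x.2 = y.2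
    · refine ⟨Sum.inr x.2, ⟨rfl, hq.symm⟩, ?_⟩
      rintro (⟨a, n⟩ | q) ⟨h4, h5⟩
      · obtain ⟨i, hi⟩ := h4
        obtain ⟨j, hj⟩ := h5
        have hi' : x = b a i + n := hi
        have hj' : y = b a j + n := hj
        have h6 : (b a i).2 = (b a j).2 := by
          have h7 := hq
          rw [hi', hj', Prod.snd_add, Prod.snd_add] at h7
          exact add_right_cancel h7
        have h7 := hB a i j h6
        exact absurd (by rw [hi', hj', h7]) hxy
      · have h4' : x.2 = q := h4
        rw [h4']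
    · obtain ⟨⟨a, i, j⟩, h1, h2⟩ := hA (x - y) (by
        rw [Prod.snd_sub]
        exact sub_ne_zero.2 hq)
      have h1' : b a i - b a j = x - y := h1
      refine ⟨Sum.inl (a, x - b a i), ⟨⟨i, ?_⟩, ⟨j, ?_⟩⟩, ?_⟩
      · change x = b a i + (x - b a i)
        abel
      · change y = b a j + (x - b a i)
        have : b a j + (x - b a i) = x - (b a i - b a j) := by abel
        rw [this, h1']
        abel
      · rintro (⟨a', n⟩ | q) ⟨h4, h5⟩
        · obtain ⟨i', hi⟩ := h4
          obtain ⟨j', hj⟩ := h5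
          have hi' : x = b a' i' + n := hi
          have hj' : y = b a' j' + n := hj
          have h6 : b a' i' - b a' j' = x - y := by
            rw [hi', hj']
            abel
          have h7 := h2 (a', i', j') h6
          have h8 : a' = a := congrArg Prod.fst h7
          have h9 : i' = i := congrArg (fun z => z.2.1) h7
          subst h8
          subst h9
          rw [hi']
          congr 2
          abel
        · have h4' : x.2 = q := h4
          have h5' : y.2 = q := h5
          exact absurd (h4'.trans h5'.symm) hq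

theorem oinc_cls (b : Fin t → Fin k → H × Q)
    (hC : ∀ q : Q, q ≠ 0 → ∃! x : Fin t × Fin k, (b x.1 x.2).2 = q)
    (h0 : ∀ a i, (b a i).2 ≠ 0) (x : Option (H × Q)) (r : Q) :
    ∃! l, ocls l = some r ∧ oinc b x l := by
  rcases x with _ | x
  · refine ⟨Sum.inr r, ⟨rfl, trivial⟩, ?_⟩
    rintro (l' | q) ⟨h4, h5⟩
    · exact h5.elim
    · have h4' : some q = some r := h4
      rw [Option.some.inj h4']
  · by_cases hq : x.2 = r
    · refine ⟨Sum.inr r, ⟨rfl, hq⟩, ?_⟩
      rintro (⟨a, n⟩ | q) ⟨h4, h5⟩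
      · exfalso
        have h4' : n.2 = r := Option.some.inj h4
        obtain ⟨i, hi⟩ := h5
        have hi' : x = b a i + n := hi
        apply h0 a i
        have h6 : x.2 = (b a i).2 + n.2 := by rw [hi', Prod.snd_add]
        rw [hq, h4'] at h6
        exact add_eq_right.1 h6.symm
      · have h4' : some q = some r := h4
        rw [Option.some.inj h4']
    · obtain ⟨⟨a, i⟩, h1, h2⟩ := hC (x.2 - r) (sub_ne_zero.2 hq)
      have h1' : (b a i).2 = x.2 - r := h1
      refine ⟨Sum.inl (a, x - b a i), ⟨?_, ⟨i, ?_⟩⟩, ?_⟩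
      · change some (x - b a i).2 = some r
        rw [Prod.snd_sub, h1']
        congr 1
        abel
      · change x = b a i + (x - b a i)
        abel
      · rintro (⟨a', n⟩ | q) ⟨h4, h5⟩
        · have h4' : n.2 = r := Option.some.inj h4
          obtain ⟨i', hi⟩ := h5
          have hi' : x = b a' i' + n := hi
          have h6 : (b a' i').2 = x.2 - r := by
            rw [hi', Prod.snd_add, h4']
            abel
          have h7 := h2 (a', i') h6
          have h8 : a' = a := congrArg Prod.fst h7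
          have h9 : i' = i := congrArg Prod.snd h7
          subst h8
          subst h9
          rw [hi']
          congr 2
          abel
        · have h4' : some q = some r := h4
          have h5' : x.2 = q := h5
          exact absurd (h5'.trans (Option.some.inj h4')) hq

theorem card_oblock (b : Fin t → Fin k → H × Q) (hB : ∀ a i j, (b a i).2 = (b a j).2 → i = j)
    (l : Fin t × (H × Q)) : Nat.card (Pts (oinc b) (Sum.inl l)) = k := by
  have E : Fin k ≃ Pts (oinc b) (Sum.inl l) := by
    refine Equiv.ofBijective (fun i => ⟨some (b l.1 i + l.2), i, rfl⟩) ⟨?_, ?_⟩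
    · intro i j h
      have h1 := Option.some.inj (congrArg Subtype.val h)
      exact hB l.1 i j (congrArg Prod.snd (add_right_cancel h1))
    · rintro ⟨_ | p, hp⟩
      · exact hp.elim
      · obtain ⟨i, hi⟩ := hp
        exact ⟨i, Subtype.ext (congrArg some hi.symm)⟩
  rw [← Nat.card_congr E, Nat.card_eq_fintype_card, Fintype.card_fin]

theorem card_ogroup [Finite H] [Finite Q] (b : Fin t → Fin k → H × Q) (q : Q) :
    Nat.card (Pts (oinc b) (Sum.inr q)) = Nat.card H + 1 := by
  have E : Option H ≃ Pts (oinc b) (Sum.inr q) := by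
    refine Equiv.ofBijective (fun h => match h with
      | none => ⟨none, trivial⟩
      | some h => ⟨some (h, q), rfl⟩) ⟨?_, ?_⟩
    · rintro (_ | h) (_ | h') e
      · rfl
      · exact absurd (congrArg Subtype.val e) (by simp)
      · exact absurd (congrArg Subtype.val e) (by simp)
      · have h1 := Option.some.inj (congrArg Subtype.val e)
        have h2 : h = h' := congrArg Prod.fst h1
        rw [h2]
    · rintro ⟨_ | p, hp⟩
      · exact ⟨none, rfl⟩
      · have hp' : p.2 = q := hp
        subst hp'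
        exact ⟨some p.1, rfl⟩
  rw [← Nat.card_congr E, Finite.card_option]

/-- **Resolvable one-rotational designs.** -/
theorem ok_rot {g : ℕ} (hg : 0 < g) [Finite H] [Finite Q] (hH : Nat.card H = g)
    (b : Fin t → Fin (g + 1) → H × Q)
    (hA : ∀ d : H × Q, d.2 ≠ 0 →
      ∃! x : Fin t × Fin (g + 1) × Fin (g + 1), b x.1 x.2.1 - b x.1 x.2.2 = d)
    (hC : ∀ q : Q, q ≠ 0 → ∃! x : Fin t × Fin (g + 1), (b x.1 x.2).2 = q)
    (h0 : ∀ a i, (b a i).2 ≠ 0) {s : ℕ} (hs : s ≤ Nat.card Q)
    (h1 : Ok g (g + 1)) (h2 : Ok g (g + 2)) (h3 : Ok g s) :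
    Ok g (g * Nat.card Q + 1 + s) := by
  have hB : ∀ a i j, (b a i).2 = (b a j).2 → i = j := by
    intro a i j h
    obtain ⟨x, -, h4⟩ := hC (b a i).2 (h0 a i)
    exact congrArg Prod.snd ((h4 (a, i) rfl).trans (h4 (a, j) h.symm).symm)
  have h := ok_res (g := g) hg (oinc_unique b hA hB) ?_ ocls (oinc_cls b hC h0) hs ?_ ?_ h3
  · have hX : Nat.card (Option (H × Q)) = g * Nat.card Q + 1 := by
      rw [Finite.card_option, Nat.card_prod, hH]
    rw [hX] at h
    exact h
  · rintro (_ | p)
    · exact ⟨Sum.inr 0, trivial⟩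
    · exact ⟨Sum.inr p.2, rfl⟩
  · rintro (l | q)
    · rw [card_oblock b hB]
      exact h1
    · rw [card_ogroup, hH]
      exact h1
  · rintro (l | q) -
    · rw [card_oblock b hB]
      exact h2
    · rw [card_ogroup, hH]
      exact h2

/-- The conditions follow from covering, by counting. -/
theorem ok_rot' {g : ℕ} (hg : 0 < g) [Fintype H] [Fintype Q] (hH : Fintype.card H = g)
    (hQ : Fintype.card Q = t * (g + 1) + 1) (b : Fin t → Fin (g + 1) → H × Q)
    (hA : ∀ d : H × Q, d.2 ≠ 0 →
      ∃ x : Fin t × Fin (g + 1) × Fin (g + 1), b x.1 x.2.1 - b x.1 x.2.2 = d)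
    (hC : ∀ q : Q, q ≠ 0 → ∃ x : Fin t × Fin (g + 1), (b x.1 x.2).2 = q)
    {s : ℕ} (hs : s ≤ t * (g + 1) + 1)
    (h1 : Ok g (g + 1)) (h2 : Ok g (g + 2)) (h3 : Ok g s) :
    Ok g (g * (t * (g + 1) + 1) + 1 + s) := by
  classical
  -- the second condition
  have c1 : (Finset.univ.filter fun q : Q => q ≠ 0).card = t * (g + 1) := by
    have := Finset.card_erase_of_mem (Finset.mem_univ (0 : Q))
    rw [Finset.card_univ, hQ, Nat.add_sub_cancel] at this
    rw [← this]
    congr 1
    ext q
    simp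
  have c2 : (Finset.univ.filter fun q : Q => q ≠ 0) ⊆
      Finset.univ.image fun x : Fin t × Fin (g + 1) => (b x.1 x.2).2 := by
    intro q hq
    obtain ⟨x, hx⟩ := hC q (Finset.mem_filter.1 hq).2
    exact Finset.mem_image.2 ⟨x, Finset.mem_univ _, hx⟩
  have c3 : (Finset.univ : Finset (Fin t × Fin (g + 1))).card = t * (g + 1) := by
    rw [Finset.card_univ, Fintype.card_prod, Fintype.card_fin, Fintype.card_fin]
  have c4 : (Finset.univ.image fun x : Fin t × Fin (g + 1) => (b x.1 x.2).2).card ≤
      (Finset.univ : Finset (Fin t × Fin (g + 1))).card := Finset.card_image_le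
  have c5 := Finset.eq_of_subset_of_card_le c2 (by rw [c1, ← c3]; exact c4)
  have c6 : Set.InjOn (fun x : Fin t × Fin (g + 1) => (b x.1 x.2).2)
      (Finset.univ : Finset (Fin t × Fin (g + 1))) := by
    rw [← Finset.card_image_iff, ← c5, c1, c3]
  have h0 : ∀ a i, (b a i).2 ≠ 0 := by
    intro a i
    have : (b a i).2 ∈ Finset.univ.image fun x : Fin t × Fin (g + 1) => (b x.1 x.2).2 :=
      Finset.mem_image.2 ⟨(a, i), Finset.mem_univ _, rfl⟩
    rw [← c5] at this
    exact (Finset.mem_filter.1 this).2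
  have hC' : ∀ q : Q, q ≠ 0 → ∃! x : Fin t × Fin (g + 1), (b x.1 x.2).2 = q := by
    intro q hq
    obtain ⟨x, hx⟩ := hC q hq
    exact ⟨x, hx, fun y hy => c6 (Finset.mem_coe.2 (Finset.mem_univ _))
      (Finset.mem_coe.2 (Finset.mem_univ _)) (hy.trans hx.symm)⟩
  -- the first condition
  let A : Finset (Fin t × Fin (g + 1) × Fin (g + 1)) :=
    Finset.univ ×ˢ (Finset.univ : Finset (Fin (g + 1))).offDiag
  let f : Fin t × Fin (g + 1) × Fin (g + 1) → H × Q := fun x => b x.1 x.2.1 - b x.1 x.2.2
  have a3 : A.card = t * ((g + 1) * g) := by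
    rw [Finset.card_product, Finset.offDiag_card, Finset.card_univ, Finset.card_univ,
      Fintype.card_fin, Fintype.card_fin]
    congr 1
    rw [Nat.mul_succ (g + 1) g, Nat.add_sub_cancel]
  have a1 : (Finset.univ.filter fun d : H × Q => d.2 ≠ 0).card = t * ((g + 1) * g) := by
    have e : (Finset.univ.filter fun d : H × Q => d.2 ≠ 0) =
        (Finset.univ : Finset H) ×ˢ (Finset.univ.filter fun q : Q => q ≠ 0) := by
      ext d
      simp
    rw [e, Finset.card_product, c1, Finset.card_univ, hH]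
    ring
  have hAmem : ∀ x : Fin t × Fin (g + 1) × Fin (g + 1), (f x).2 ≠ 0 → x ∈ A := by
    rintro ⟨a, i, j⟩ h
    refine Finset.mem_product.2 ⟨Finset.mem_univ _, Finset.mem_offDiag.2
      ⟨Finset.mem_univ _, Finset.mem_univ _, ?_⟩⟩
    intro hij
    have hij' : i = j := hij
    apply h
    change (b a i - b a j).2 = 0
    rw [hij', sub_self]
    rfl
  have a2 : (Finset.univ.filter fun d : H × Q => d.2 ≠ 0) ⊆ A.image f := by
    intro d hd
    have hd' := (Finset.mem_filter.1 hd).2
    obtain ⟨x, hx⟩ := hA d hd'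
    have hx' : f x = d := hx
    exact Finset.mem_image.2 ⟨x, hAmem x (by rw [hx']; exact hd'), hx'⟩
  have a4 : (A.image f).card ≤ A.card := Finset.card_image_le
  have a5 := Finset.eq_of_subset_of_card_le a2 (by rw [a1, ← a3]; exact a4)
  have a6 : Set.InjOn f A := by
    rw [← Finset.card_image_iff, ← a5, a1, a3]
  have hA' : ∀ d : H × Q, d.2 ≠ 0 →
      ∃! x : Fin t × Fin (g + 1) × Fin (g + 1), b x.1 x.2.1 - b x.1 x.2.2 = d := by
    intro d hd
    obtain ⟨x, hx⟩ := hA d hd
    refine ⟨x, hx, fun y hy => ?_⟩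
    have hx' : f x = d := hx
    have hy' : f y = d := hy
    exact a6 (Finset.mem_coe.2 (hAmem y (by rw [hy']; exact hd)))
      (Finset.mem_coe.2 (hAmem x (by rw [hx']; exact hd))) (hy'.trans hx'.symm)
  have hQ' : Nat.card Q = t * (g + 1) + 1 := by rw [Nat.card_eq_fintype_card, hQ]
  have h := ok_rot hg (by rw [Nat.card_eq_fintype_card, hH]) b hA' hC' h0
    (by rw [hQ']; exact hs) h1 h2 h3
  rw [hQ'] at h
  exact h

end rot

end Pool.Agent.N409
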