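import Pool.Agent.N409.RotC
import Pool.Agent.TH739.SN.Base

/-!
A one-rotational resolvable design `(1593,9,1)` over `ℤ_8 × ℤ_199`, found by computer, and the
Steiner system `S(14113,9,2)`.
-/

set_option autoImplicit false
set_option maxRecDepth 100000

namespace Pool.Agent.N409

open Pool.Agent.H816R2.KM2 Pool.Agent.TH739.SN

theorem ok8_9 : Ok 8 9 := ok_of (g := 8) (n := 9) rfl rfl d73

theorem ok8_10 : Ok 8 10 := ok_of (g := 8) (n := 10) rfl rfl d81

theorem ok8_171 : Ok 8 171 := ok_of (g := 8) (n := 171) rfl rfl d1369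

/-- base blocks of a one-rotational resolvable design `(1593,9,1)` over `ℤ_8 × ℤ_199` -/
def rot1593 : List (List ℕ) :=
  [[1228, 1212, 632, 1160, 473, 546, 1542, 1499, 431],
   [1340, 1052, 232, 184, 537, 242, 590, 1459, 1271],
   [1436, 460, 344, 712, 137, 1346, 1366, 515, 399],
   [1068, 76, 976, 280, 609, 298, 1310, 419, 823],
   [700, 1284, 16, 1440, 1081, 842, 1254, 323, 1247],
   [308, 252, 1416, 80, 857, 314, 606, 1259, 695],
   [1036, 804, 408, 104, 1273, 1522, 1582, 203, 583],
   [52, 1300, 56, 264, 1393, 554, 1190, 1123, 367],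
   [172, 1356, 992, 128, 97, 1138, 966, 739, 471],
   [1388, 756, 288, 448, 337, 794, 182, 987, 39],
   [868, 1044, 1008, 1568, 1177, 386, 622, 1059, 119],
   [945, 969, 1144, 160, 704, 1171, 651, 683, 791],
   [1073, 1505, 1488, 1288, 1528, 331, 523, 1099, 1383],
   [273, 145, 1328, 208, 1552, 1203, 1323, 91, 71],
   [1217, 1113, 880, 368, 664, 779, 379, 771, 855],
   [569, 489, 432, 528, 1368, 355, 1027, 1451, 47],
   [121, 1001, 24, 560, 872, 907, 1475, 1587, 1159],
   [953, 505, 1464, 728, 656, 1019, 643, 1107, 231],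
   [1193, 913, 1512, 256, 808, 1235, 403, 1091, 943],
   [193, 9, 1312, 896, 440, 1131, 1403, 627, 895],
   [673, 825, 1408, 1544, 744, 1563, 923, 595, 727],
   [761, 497, 152, 1424, 216, 1483, 835, 483, 935]]

theorem okRot1593 : okRot (codedZ 8) (codedZ 199) 22 9 rot1593 = true := by
  decide +kernel

/-- `14113 = 8 (1593 + 171) + 1` -/
theorem ok8_1764 : Ok 8 1764 :=
  ok_rotc (g := 8) (t := 22) (s := 171) (by norm_num) (codedZ 8) (codedZ 199) rfl rfl rot1593
    okRot1593 (by norm_num) ok8_9 ok8_10 ok8_171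

end Pool.Agent.N409
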