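import Pool.Agent.N409.Rot

/-!
One-rotational resolvable designs given by codes, and the order `2241` for block size `8`.
-/

set_option autoImplicit false
set_option maxRecDepth 100000

namespace Pool.Agent.N409

open Pool.Agent.H816R2.KM2 Pool.Agent.TH739.SN

/-- codes for a product -/
def codedX {H Q : Type} [AddCommGroup H] [Fintype H] [AddCommGroup Q] [Fintype Q]
    (C : Coded H) (D : Coded Q) : Coded (H × Q) where
  nn := C.nn * D.nn
  en := fun a => (C.en (a % C.nn), D.en (a / C.nn))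
  addc := fun a b => C.addc (a % C.nn) (b % C.nn) + C.nn * D.addc (a / C.nn) (b / C.nn)
  negc := fun a => C.negc (a % C.nn) + C.nn * D.negc (a / C.nn)
  hnn := Nat.mul_pos C.hnn D.hnn
  hN := by rw [Fintype.card_prod, C.hN, D.hN]
  hen := by
    rintro ⟨g, h⟩
    obtain ⟨a, ha, rfl⟩ := C.hen g
    obtain ⟨b, hb, rfl⟩ := D.hen h
    refine ⟨a + C.nn * b, ?_, ?_⟩
    · calc a + C.nn * b < C.nn + C.nn * b := by omega
        _ = C.nn * (b + 1) := by ring
        _ ≤ C.nn * D.nn := Nat.mul_le_mul_left _ hb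
    · rw [Nat.add_mul_div_left _ _ C.hnn, Nat.div_eq_of_lt ha, Nat.zero_add,
        Nat.add_mul_mod_self_left, Nat.mod_eq_of_lt ha]
  heni := by
    intro a ha b hb h
    rw [Prod.mk.injEq] at h
    obtain ⟨h1, h2⟩ := h
    have h3 := C.heni _ (Nat.mod_lt a C.hnn) _ (Nat.mod_lt b C.hnn) h1
    have h5 := D.heni _ (Nat.div_lt_of_lt_mul ha) _ (Nat.div_lt_of_lt_mul hb) h2
    rw [← Nat.div_add_mod a C.nn, ← Nat.div_add_mod b C.nn, h3, h5]
  hen0 := by
    simp [C.hen0, D.hen0]
  hadd := by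
    intro a ha b hb
    obtain ⟨h1, h2⟩ := D.hadd _ (Nat.div_lt_of_lt_mul ha) _ (Nat.div_lt_of_lt_mul hb)
    obtain ⟨h3, h4⟩ := C.hadd _ (Nat.mod_lt a C.hnn) _ (Nat.mod_lt b C.hnn)
    refine ⟨?_, ?_⟩
    · calc C.addc (a % C.nn) (b % C.nn) + C.nn * D.addc (a / C.nn) (b / C.nn)
          < C.nn + C.nn * D.addc (a / C.nn) (b / C.nn) := by omega
        _ = C.nn * (D.addc (a / C.nn) (b / C.nn) + 1) := by ring
        _ ≤ C.nn * D.nn := Nat.mul_le_mul_left _ h1
    · rw [Nat.add_mul_div_left _ _ C.hnn, Nat.div_eq_of_lt h3, Nat.zero_add,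
        Nat.add_mul_mod_self_left, Nat.mod_eq_of_lt h3, h2, h4]
      rfl
  hneg := by
    intro a ha
    obtain ⟨h1, h2⟩ := D.hneg _ (Nat.div_lt_of_lt_mul ha)
    obtain ⟨h3, h4⟩ := C.hneg _ (Nat.mod_lt a C.hnn)
    refine ⟨?_, ?_⟩
    · calc C.negc (a % C.nn) + C.nn * D.negc (a / C.nn)
          < C.nn + C.nn * D.negc (a / C.nn) := by omega
        _ = C.nn * (D.negc (a / C.nn) + 1) := by ring
        _ ≤ C.nn * D.nn := Nat.mul_le_mul_left _ h1
    · rw [Nat.add_mul_div_left _ _ C.hnn, Nat.div_eq_of_lt h3, Nat.zero_add,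
        Nat.add_mul_mod_self_left, Nat.mod_eq_of_lt h3, h2, h4]
      rfl

/-- the check of the base blocks of a one-rotational resolvable design; the code of an element is
`κ + |H| ξ` -/
def okRot {H Q : Type} [AddCommGroup H] [Fintype H] [AddCommGroup Q] [Fintype Q]
    (C : Coded H) (D : Coded Q) (t k : ℕ) (rows : List (List ℕ)) : Bool :=
  let X := codedX C D
  let M := addBits ((List.range t).flatMap fun a => (List.range k).flatMap fun i =>
    (List.range k).map fun j => X.addc (ent rows a i) (X.negc (ent rows a j))) 0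
  let M' := addBits ((List.range t).flatMap fun a => (List.range k).map fun i =>
    ent rows a i / C.nn) 0
  ((List.range t).all fun a => (List.range k).all fun i => decide (ent rows a i < X.nn)) &&
    (((List.range X.nn).all fun c => decide (c < C.nn) || Nat.testBit M c) &&
      ((List.range D.nn).all fun c => c == 0 || Nat.testBit M' c))

theorem okRot_spec {H Q : Type} [AddCommGroup H] [Fintype H] [AddCommGroup Q] [Fintype Q]
    (C : Coded H) (D : Coded Q) (t k : ℕ) (rows : List (List ℕ))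
    (h : okRot C D t k rows = true) :
    (∀ d : H × Q, d.2 ≠ 0 → ∃ x : Fin t × Fin k × Fin k,
      (codedX C D).en (ent rows x.1 x.2.1) - (codedX C D).en (ent rows x.1 x.2.2) = d) ∧
    ∀ q : Q, q ≠ 0 → ∃ x : Fin t × Fin k, ((codedX C D).en (ent rows x.1 x.2)).2 = q := by
  unfold okRot at h
  simp only [Bool.and_eq_true, List.all_eq_true] at h
  obtain ⟨h1, h2, h3⟩ := h
  have hlt : ∀ (a : Fin t) (i : Fin k), ent rows a i < (codedX C D).nn := fun a i =>
    of_decide_eq_true (h1 a (List.mem_range.2 a.2) i (List.mem_range.2 i.2))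
  refine ⟨?_, ?_⟩
  · intro d hd
    obtain ⟨c, hc, rfl⟩ := (codedX C D).hen d
    have h4 := h2 c (List.mem_range.2 hc)
    rw [Bool.or_eq_true] at h4
    rcases h4 with h4 | h4
    · exfalso
      have h5 : c < C.nn := of_decide_eq_true h4
      apply hd
      change D.en (c / C.nn) = 0
      rw [Nat.div_eq_of_lt h5, D.hen0]
    · rw [addBits_spec] at h4
      rcases h4 with h4 | h4
      · simp at h4
      · rw [List.mem_flatMap] at h4
        obtain ⟨a, ha, h4⟩ := h4
        rw [List.mem_flatMap] at h4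
        obtain ⟨i, hi, h4⟩ := h4
        rw [List.mem_map] at h4
        obtain ⟨j, hj, h4⟩ := h4
        have ha' := List.mem_range.1 ha
        have hi' := List.mem_range.1 hi
        have hj' := List.mem_range.1 hj
        refine ⟨(⟨a, ha'⟩, ⟨i, hi'⟩, ⟨j, hj'⟩), ?_⟩
        change (codedX C D).en (ent rows a i) - (codedX C D).en (ent rows a j) = _
        have h5 := (codedX C D).hneg (ent rows a j) (hlt ⟨a, ha'⟩ ⟨j, hj'⟩)
        have h6 := (codedX C D).hadd (ent rows a i) (hlt ⟨a, ha'⟩ ⟨i, hi'⟩) _ h5.1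
        rw [← h4, h6.2, h5.2, sub_eq_add_neg]
  · intro q hq
    obtain ⟨c, hc, rfl⟩ := D.hen q
    have h4 := h3 c (List.mem_range.2 hc)
    rw [Bool.or_eq_true, beq_iff_eq] at h4
    rcases h4 with h4 | h4
    · exfalso
      apply hq
      rw [h4, D.hen0]
    · rw [addBits_spec] at h4
      rcases h4 with h4 | h4
      · simp at h4
      · rw [List.mem_flatMap] at h4
        obtain ⟨a, ha, h4⟩ := h4
        rw [List.mem_map] at h4
        obtain ⟨i, hi, h4⟩ := h4
        refine ⟨(⟨a, List.mem_range.1 ha⟩, ⟨i, List.mem_range.1 hi⟩), ?_⟩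
        change D.en (ent rows a i / C.nn) = _
        rw [h4]

/-- **Resolvable one-rotational designs given by codes.** -/
theorem ok_rotc {g : ℕ} (hg : 0 < g) {H Q : Type} [AddCommGroup H] [Fintype H] [AddCommGroup Q]
    [Fintype Q] (C : Coded H) (D : Coded Q) {t s : ℕ} (hH : C.nn = g)
    (hQ : D.nn = t * (g + 1) + 1) (rows : List (List ℕ))
    (h : okRot C D t (g + 1) rows = true) (hs : s ≤ t * (g + 1) + 1)
    (h1 : Ok g (g + 1)) (h2 : Ok g (g + 2)) (h3 : Ok g s) :
    Ok g (g * (t * (g + 1) + 1) + 1 + s) := by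
  obtain ⟨h4, h5⟩ := okRot_spec C D t (g + 1) rows h
  exact ok_rot' hg (by rw [C.hN, hH]) (by rw [D.hN, hQ])
    (fun a i => (codedX C D).en (ent rows a i)) h4 h5 hs h1 h2 h3

/-- base blocks of a one-rotational resolvable design `(288,8,1)` over `ℤ_7 × ℤ_41` -/
def rot288 : List (List ℕ) :=
  [[7, 99, 226, 270, 280, 190, 65, 25],
   [70, 120, 233, 81, 217, 169, 58, 214],
   [112, 134, 142, 242, 175, 155, 149, 53],
   [126, 43, 16, 200, 161, 246, 275, 95],
   [259, 183, 254, 88, 28, 106, 37, 207]]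

theorem okRot288 : okRot (codedZ 7) (codedZ 41) 5 8 rot288 = true := by
  decide +kernel

/-- `2241 = 7 (288 + 32) + 1` -/
theorem ok7_320 : Ok 7 320 :=
  ok_rotc (g := 7) (t := 5) (s := 32) (by norm_num) (codedZ 7) (codedZ 41) rfl rfl rot288
    okRot288 (by norm_num) ok7_8 ok7_9 ok7_32

end Pool.Agent.N409
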