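import Pool.Agent.N894.WF.DefsG
import Pool.Agent.N398.WF_B2

/-!
WF/G2: from words to the graph product (helper409), after helper398's `WF_B2`.
-/

set_option autoImplicit false

namespace Pool.Agent.N409.WF

open N894.WF Pool.Agent.N398.WF

section

variable {V : Type} {Γ : V → Type} [∀ v, Group (Γ v)]

/-- exact commutation along edges -/
def Cm (X : SimpleGraph V) {P : Type} [Group P] (φ : (v : V) → Γ v → P) : Prop :=
  ∀ u v, X.Adj u v → ∀ (a : Γ u) (b : Γ v), Commute (φ u a) (φ v b)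

/-- consequences of boundedly many errors -/
def ConsG (X : SimpleGraph V) (r : FreeGroup (Σ v, Γ v)) : Prop :=
  ∃ (F : Finset (Σ v, Γ v)) (n : ℕ), ∀ (P : Type) [Group P] (φ : (v : V) → Γ v → P), Cm X φ →
    ∃ T : Finset P, T.card ≤ n ∧ IsErrV φ F T ∧ Ph φ r ∈ Subgroup.closure (T : Set P)

variable (X : SimpleGraph V)

/-- the subgroup of the consequences -/
def NG (Γ : V → Type) [∀ v, Group (Γ v)] : Subgroup (FreeGroup (Σ v, Γ v)) where
  carrier := {r | ConsG X r}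
  one_mem' := ⟨∅, 0, fun P _ φ _ => ⟨∅, le_rfl, fun t ht => absurd ht (Finset.notMem_empty t), by
    rw [map_one]
    exact Subgroup.one_mem _⟩⟩
  mul_mem' := by
    classical
    rintro r s ⟨F, n, h⟩ ⟨F', n', h'⟩
    refine ⟨F ∪ F', n + n', fun P _ φ hc => ?_⟩
    obtain ⟨T, hT1, hT2, hT3⟩ := h P φ hc
    obtain ⟨T', hT1', hT2', hT3'⟩ := h' P φ hc
    refine ⟨T ∪ T', (Finset.card_union_le _ _).trans (add_le_add hT1 hT1'), ?_, ?_⟩
    · intro t ht
      rcases Finset.mem_union.1 ht with ht | ht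
      · exact (err_mono Finset.subset_union_left hT2) t ht
      · exact (err_mono Finset.subset_union_right hT2') t ht
    · rw [map_mul]
      refine Subgroup.mul_mem _ (Subgroup.closure_mono ?_ hT3) (Subgroup.closure_mono ?_ hT3')
      · exact_mod_cast Finset.subset_union_left
      · exact_mod_cast Finset.subset_union_right
  inv_mem' := by
    rintro r ⟨F, n, h⟩
    refine ⟨F, n, fun P _ φ hc => ?_⟩
    obtain ⟨T, hT1, hT2, hT3⟩ := h P φ hc
    refine ⟨T, hT1, hT2, ?_⟩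
    rw [map_inv]
    exact Subgroup.inv_mem _ hT3

theorem mem_NG {r : FreeGroup (Σ v, Γ v)} : r ∈ NG X Γ ↔ ConsG X r := Iff.rfl

instance : (NG X Γ).Normal where
  conj_mem := by
    classical
    rintro r ⟨F, n, h⟩ w
    refine ⟨F, n, fun P _ φ hc => ?_⟩
    obtain ⟨T, hT1, hT2, hT3⟩ := h P φ hc
    obtain ⟨a, b⟩ := conj_closure hT2 (Ph φ w) hT3
    refine ⟨_, Finset.card_image_le.trans hT1, a, ?_⟩
    rw [map_mul, map_mul, map_inv]
    exact b

theorem relG_mem (v : V) (a b : Γ v) :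
    FreeGroup.of (⟨v, a⟩ : Σ v, Γ v) * FreeGroup.of (⟨v, b⟩ : Σ v, Γ v) *
      (FreeGroup.of (⟨v, a * b⟩ : Σ v, Γ v))⁻¹ ∈ NG X Γ := by
  obtain ⟨F, n, h⟩ := rel_mem v a b
  exact ⟨F, n, fun P _ φ _ => h P φ⟩

theorem relC_mem {u v : V} (h : X.Adj u v) (a : Γ u) (b : Γ v) :
    FreeGroup.of (⟨u, a⟩ : Σ v, Γ v) * FreeGroup.of (⟨v, b⟩ : Σ v, Γ v) *
      (FreeGroup.of (⟨u, a⟩ : Σ v, Γ v))⁻¹ * (FreeGroup.of (⟨v, b⟩ : Σ v, Γ v))⁻¹ ∈ NG X Γ := by
  refine ⟨∅, 0, fun P _ φ hc => ⟨∅, le_rfl, fun t ht => absurd ht (Finset.notMem_empty t), ?_⟩⟩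
  have e : Ph φ (FreeGroup.of (⟨u, a⟩ : Σ v, Γ v) * FreeGroup.of (⟨v, b⟩ : Σ v, Γ v) *
      (FreeGroup.of (⟨u, a⟩ : Σ v, Γ v))⁻¹ * (FreeGroup.of (⟨v, b⟩ : Σ v, Γ v))⁻¹) = 1 := by
    unfold Ph
    rw [map_mul, map_mul, map_mul, map_inv, map_inv, FreeGroup.lift_apply_of,
      FreeGroup.lift_apply_of]
    have := (hc u v h a b).eq
    rw [mul_inv_eq_one, mul_inv_eq_iff_eq_mul]
    exact this
  rw [e]
  exact Subgroup.one_mem _

/-- the homomorphisms of the factors to the quotient -/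
noncomputable def facG (v : V) : Γ v →* FreeGroup (Σ v, Γ v) ⧸ NG X Γ :=
  MonoidHom.mk' (fun a => QuotientGroup.mk' (NG X Γ) (FreeGroup.of ⟨v, a⟩)) (by
    intro a b
    have h := (QuotientGroup.eq_one_iff (N := NG X Γ) _).2 (relG_mem X v a b)
    have h2 : QuotientGroup.mk' (NG X Γ) (FreeGroup.of (⟨v, a⟩ : Σ v, Γ v) *
      FreeGroup.of (⟨v, b⟩ : Σ v, Γ v) * (FreeGroup.of (⟨v, a * b⟩ : Σ v, Γ v))⁻¹) = 1 := h
    rw [map_mul, map_mul, map_inv, mul_inv_eq_one] at h2
    exact h2.symm)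

/-- the normal closure of the commutators -/
def CC (Γ : V → Type) [∀ v, Group (Γ v)] : Subgroup (Monoid.CoprodI Γ) :=
  Subgroup.normalClosure
    {z : Monoid.CoprodI Γ | ∃ u v : V, X.Adj u v ∧ ∃ (a : Γ u) (b : Γ v),
      z = Monoid.CoprodI.of a * Monoid.CoprodI.of b * (Monoid.CoprodI.of a)⁻¹ *
        (Monoid.CoprodI.of b)⁻¹}

instance : (CC X Γ).Normal := by unfold CC; infer_instance

/-- the projection from the free product to the graph product -/
noncomputable def pr : Monoid.CoprodI Γ →* GraphProduct X Γ := QuotientGroup.mk' (CC X Γ)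

theorem pr_surj : Function.Surjective (pr (Γ := Γ) X) := QuotientGroup.mk'_surjective (CC X Γ)

/-- the homomorphism from the graph product to the quotient -/
noncomputable def lifG : GraphProduct X Γ →* FreeGroup (Σ v, Γ v) ⧸ NG X Γ :=
  QuotientGroup.lift (CC X Γ) (Monoid.CoprodI.lift (facG X)) (by
    intro z hz
    have : CC X Γ ≤ (Monoid.CoprodI.lift (facG X)).ker := by
      refine Subgroup.normalClosure_le_normal ?_
      rintro _ ⟨u, v, h, a, b, rfl⟩
      show _ ∈ (Monoid.CoprodI.lift (facG X)).ker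
      rw [MonoidHom.mem_ker, map_mul, map_mul, map_mul, map_inv, map_inv,
        Monoid.CoprodI.lift_of, Monoid.CoprodI.lift_of]
      have h := (QuotientGroup.eq_one_iff (N := NG X Γ) _).2 (relC_mem X h a b)
      exact h
    exact this hz)

theorem lifG_pr (z : Monoid.CoprodI Γ) : lifG X (pr X z) = Monoid.CoprodI.lift (facG X) z := rfl

/-- the value of a word in the graph product -/
noncomputable def vl (l : List (Σ v, Γ v)) : GraphProduct X Γ :=
  (l.map fun x => pr X (Monoid.CoprodI.of (M := Γ) x.2)).prod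

theorem mk_llG (l : List (Σ v, Γ v)) : QuotientGroup.mk' (NG X Γ) (ll l) = lifG X (vl X l) := by
  unfold ll vl
  rw [map_list_prod, map_list_prod, List.map_map, List.map_map]
  congr 1

theorem vl_append (l l' : List (Σ v, Γ v)) : vl X (l ++ l') = vl X l * vl X l' := by
  unfold vl
  rw [List.map_append, List.prod_append]

theorem vl_cons (x : Σ v, Γ v) (l : List (Σ v, Γ v)) :
    vl X (x :: l) = pr X (Monoid.CoprodI.of (M := Γ) x.2) * vl X l := by
  unfold vl
  rw [List.map_cons, List.prod_cons]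

theorem pr_comm {u v : V} (h : X.Adj u v) (a : Γ u) (b : Γ v) :
    Commute (pr X (Monoid.CoprodI.of a)) (pr X (Monoid.CoprodI.of b)) := by
  have h1 : Monoid.CoprodI.of a * Monoid.CoprodI.of b * (Monoid.CoprodI.of a)⁻¹ *
        (Monoid.CoprodI.of b)⁻¹ ∈ CC X Γ := Subgroup.subset_normalClosure ⟨u, v, h, a, b, rfl⟩
  have h2 : pr X (Monoid.CoprodI.of a * Monoid.CoprodI.of b * (Monoid.CoprodI.of a)⁻¹ *
        (Monoid.CoprodI.of b)⁻¹) = 1 := (QuotientGroup.eq_one_iff (N := CC X Γ) _).2 h1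
  rw [map_mul, map_mul, map_mul, map_inv, map_inv, mul_inv_eq_one, mul_inv_eq_iff_eq_mul] at h2
  exact h2

theorem vl_comm {v : V} (a : Γ v) (u : List (Σ v, Γ v)) (h : ∀ z ∈ u, X.Adj v z.1) :
    Commute (pr X (Monoid.CoprodI.of a)) (vl X u) := by
  induction u with
  | nil => exact Commute.one_right _
  | cons z u ih =>
    rw [vl_cons]
    exact (pr_comm X (h z List.mem_cons_self) a z.2).mul_right
      (ih fun z hz => h z (List.mem_cons_of_mem _ hz))

theorem vl_surj (g : GraphProduct X Γ) : ∃ l, vl X l = g := by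
  classical
  obtain ⟨z, rfl⟩ := pr_surj X g
  refine ⟨(Monoid.CoprodI.Word.equiv z).toList, ?_⟩
  have h : (Monoid.CoprodI.Word.equiv z).prod = z := Monoid.CoprodI.Word.equiv.symm_apply_apply z
  conv_rhs => rw [← h]
  unfold vl Monoid.CoprodI.Word.prod
  rw [map_list_prod, List.map_map]
  rfl

theorem exists_min (g : GraphProduct X Γ) : ∃ l, vl X l = g ∧
    ∀ l', vl X l' = g → l.length ≤ l'.length := by
  classical
  have hex : ∃ n, ∃ l, vl X l = g ∧ l.length = n := by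
    obtain ⟨l, hl⟩ := vl_surj X g
    exact ⟨_, l, hl, rfl⟩
  obtain ⟨l, hl, hn⟩ := Nat.find_spec hex
  refine ⟨l, hl, fun l' hl' => ?_⟩
  rw [hn]
  exact Nat.find_min' hex ⟨l', hl', rfl⟩

theorem min_ne_one {l : List (Σ v, Γ v)}
    (hl : ∀ l', vl X l' = vl X l → l.length ≤ l'.length) : ∀ x ∈ l, x.2 ≠ 1 := by
  intro x hx h1
  obtain ⟨p, q, rfl⟩ := List.append_of_mem hx
  have := hl (p ++ q) (by
    rw [vl_append, vl_append, vl_cons, h1, map_one, map_one, one_mul])
  simp at this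

theorem min_red {l : List (Σ v, Γ v)}
    (hl : ∀ l', vl X l' = vl X l → l.length ≤ l'.length) : Red X l := by
  rintro p u q ⟨v, a⟩ ⟨v', b⟩ e hv
  subst e
  by_contra hcon
  push Not at hcon
  dsimp only at hv
  subst hv
  have := hl (p ++ ⟨v, a * b⟩ :: (u ++ q)) (by
    rw [vl_append, vl_append, vl_cons, vl_cons, vl_append, vl_append, vl_cons]
    dsimp only
    have hc := (vl_comm X b u hcon).eq
    rw [map_mul, map_mul, ← mul_assoc (vl X u), ← hc]
    simp only [mul_assoc])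
  simp at this

end

theorem t_G2 : LeafG2 := by
  classical
  intro V X Γ _ hG F₀ K
  choose w hw hmin using exists_min (Γ := Γ) X
  have hc : ∀ g h : GraphProduct X Γ, ConsG X (ll (w g) * ll (w h) * (ll (w (g * h)))⁻¹) := by
    intro g h
    rw [← mem_NG, ← QuotientGroup.eq_one_iff]
    show QuotientGroup.mk' (NG X Γ) (ll (w g) * ll (w h) * (ll (w (g * h)))⁻¹) = 1
    rw [map_mul, map_mul, map_inv, mk_llG, mk_llG, mk_llG, hw, hw, hw, map_mul, mul_inv_cancel]
  choose F₁ n hn using hc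
  obtain ⟨F, hF⟩ : ∃ F : Finset (Σ v, Γ v), F = (F₀ ×ˢ F₀).biUnion (fun p => F₁ p.1 p.2) ∪
      F₀.biUnion fun g => (w g).toFinset := ⟨_, rfl⟩
  obtain ⟨m, hm⟩ : ∃ m : ℕ, m = ∑ p ∈ F₀ ×ˢ F₀, n p.1 p.2 := ⟨_, rfl⟩
  obtain ⟨N, hN⟩ : ∃ N : ℕ, N = ∑ g ∈ F₀, (w g).length := ⟨_, rfl⟩
  obtain ⟨P, hP, hfin, φ, hcomm, hgood⟩ := hG F (K * m) N
  refine ⟨P, hP, hfin, fun g => ev φ (w g), fun T hT hE g hg hg1 hmem => ?_⟩
  have hone : ∀ t : P, t ∈ T → ∃ T' : Finset P, T'.card ≤ m ∧ IsErrV φ F T' ∧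
      t ∈ Subgroup.closure (T' : Set P) := by
    intro t ht
    obtain ⟨x, g, hg, h, hh, e⟩ := hE t ht
    obtain ⟨T', h1, h2, h3⟩ := hn g h P φ hcomm
    obtain ⟨h4, h5⟩ := conj_closure h2 x h3
    refine ⟨_, Finset.card_image_le.trans (h1.trans ?_), err_mono ?_ h4, ?_⟩
    · rw [hm]
      exact Finset.single_le_sum (f := fun p : GraphProduct X Γ × GraphProduct X Γ => n p.1 p.2)
        (fun _ _ => Nat.zero_le _) (Finset.mk_mem_product hg hh)
    · rw [hF]
      refine Finset.Subset.trans ?_ Finset.subset_union_left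
      exact Finset.subset_biUnion_of_mem
        (fun p : GraphProduct X Γ × GraphProduct X Γ => F₁ p.1 p.2) (Finset.mk_mem_product hg hh)
    · rw [map_mul, map_mul, map_inv, Ph_ll, Ph_ll, Ph_ll, ← e] at h5
      exact h5
  choose T' h1 h2 h3 using hone
  have hmin' : ∀ l', vl X l' = vl X (w g) → (w g).length ≤ l'.length := by
    intro l' hl'
    rw [hw] at hl'
    exact hmin g l' hl'
  refine hgood (w g) ?_ ?_ (min_red X hmin') ∅ ?_
    (T.attach.biUnion fun t => T' t.1 t.2) ?_ ?_ (ev φ (w g)) ?_ 1 (Subgroup.one_mem _)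
    (mul_one _).symm
  · rw [hN]
    exact Finset.single_le_sum (f := fun g => (w g).length) (fun _ _ => Nat.zero_le _) hg
  · intro x hx
    refine ⟨?_, min_ne_one X hmin' x hx⟩
    rw [hF]
    exact Finset.mem_union_right _ (Finset.mem_biUnion.2 ⟨g, hg, List.mem_toFinset.2 hx⟩)
  · rcases List.eq_nil_or_concat (w g) with h0 | ⟨l, x, h0⟩
    · exfalso
      apply hg1
      rw [← hw g, h0]
      rfl
    · exact ⟨x, by rw [h0]; simp, Set.notMem_empty _⟩
  · refine (Finset.card_biUnion_le_card_mul _ _ m fun t _ => h1 t.1 t.2).trans ?_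
    rw [Finset.card_attach]
    exact Nat.mul_le_mul_right m hT
  · intro t ht
    obtain ⟨s, -, hs⟩ := Finset.mem_biUnion.1 ht
    exact h2 s.1 s.2 t hs
  · refine (Subgroup.closure_le _).2 (fun t ht => ?_) hmem
    refine Subgroup.closure_mono ?_ (h3 t ht)
    intro s hs
    exact Finset.mem_coe.2 (Finset.mem_biUnion.2 ⟨⟨t, ht⟩, Finset.mem_attach _ _, hs⟩)

end Pool.Agent.N409.WF
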